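import Pool.Agent.Run7.h367.AFinal

/-!
# Schiffer's conjecture for domains with algebraic boundary

Let `Ω = φ(D)`, where `φ` is holomorphic and injective in a disc `|w| < r`, `r > 1`, let `D` be the
open unit disc, and let (S) have a nontrivial solution on `Ω` for some `lam > 0`. If `∂Ω` lies on a
real algebraic curve, then `Ω` is a disc or three Bessel functions have a common zero; if the degree
of the curve is at most seven, then `Ω` is a disc.
-/

set_option autoImplicit false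

open MeasureTheory Metric Set Filter Topology ComplexConjugate

namespace Pool.Agent.Results.MP_83fd13_an.AlgebraicBoundaries

/-- The overdetermined problem (S) in the plane `ℂ`: `-Δu = lam u` in `Ω`, `∂u/∂n = 0` on `∂Ω`,
`u = c` on `∂Ω` has a nontrivial weak solution `u` for some real constant `c`; `G` is the weak
gradient of `u`, and both boundary conditions are expressed by testing with functions that need not
vanish on `∂Ω`. -/
def Solvable (Ω : Set ℂ) (lam : ℝ) : Prop :=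
  ∃ (c : ℝ) (u : ℂ → ℝ) (G : ℂ → ℂ),
    MemLp u 2 (volume.restrict Ω) ∧ MemLp G 2 (volume.restrict Ω) ∧
    (∀ φ : ℂ → ℝ, ContDiff ℝ 1 φ → HasCompactSupport φ → ∀ v : ℂ,
      ∫ x in Ω, (u x - c) * (fderiv ℝ φ x v) = - ∫ x in Ω, @inner ℝ ℂ _ (G x) v * φ x) ∧
    (∀ φ : ℂ → ℝ, ContDiff ℝ 1 φ → HasCompactSupport φ →
      ∫ x in Ω, fderiv ℝ φ x (G x) = lam * ∫ x in Ω, u x * φ x) ∧
    ¬ (u =ᵐ[volume.restrict Ω] 0)

/-- `Ω` is an open disc. -/
def IsDisc (Ω : Set ℂ) : Prop := ∃ (p : ℂ) (r0 : ℝ), 0 < r0 ∧ Ω = ball p r0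

/-- `J_1(2 √y) = 0`, `y ≠ 0`, i.e. `∑ (-y) ^ k / (k! (k + 1)!) = 0`. -/
def ZeroOfJ1 (y : ℂ) : Prop :=
  HasSum (fun k : ℕ => (-y) ^ k / ((k.factorial : ℂ) * ((k + 1).factorial : ℂ))) 0

/-- `J_(-s)(2 √y) = 0` for `s` not an integer, i.e.
`∑ y ^ m / (m! (s - 1) (s - 2) ⋯ (s - m)) = 0`. -/
def ZeroOfJMinus (s : ℝ) (y : ℂ) : Prop :=
  HasSum (fun m : ℕ => y ^ m / ((m.factorial : ℂ) *
    ∏ i ∈ Finset.range m, (((s - 1 : ℝ) : ℂ) - i))) 0

/-- Three Bessel functions have a common zero `√(lam C)`, `C > 0`: `J_1`, `J_(-j/q)`, `J_(-j'/q)`,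
where `q ≥ 3`, `j > 2 q`, `j' > j + q`, `q` divides none of `j`, `j'`, `j' - j`, and, for the
polynomial `P(z, w)` (the inner variable is `z`, the outer variable is `w`), `q + j ≤ 2 deg_w P`,
`q + j ≤ 2 deg_z P` and the leading coefficient of `P` with respect to `w` has a zero of order at
least `q` at some point `z0` of `Ω`. -/
def TripleResonance (Ω : Set ℂ) (lam : ℝ) (P : Polynomial (Polynomial ℂ)) : Prop :=
  ∃ (z0 : ℂ) (C : ℝ) (q j j' : ℕ), z0 ∈ Ω ∧ 0 < C ∧ 3 ≤ q ∧ 2 * q < j ∧ j + q < j' ∧ ¬ q ∣ j ∧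
    ¬ q ∣ j' ∧ ¬ q ∣ j' - j ∧ (Polynomial.X - Polynomial.C z0) ^ q ∣ P.leadingCoeff ∧
    q + j ≤ 2 * P.natDegree ∧ q + j ≤ 2 * (Polynomial.Bivariate.swap P).natDegree ∧
    ZeroOfJ1 ((lam * C / 4 : ℝ) : ℂ) ∧ ZeroOfJMinus ((j : ℝ) / q) ((lam * C / 4 : ℝ) : ℂ) ∧
    ZeroOfJMinus ((j' : ℝ) / q) ((lam * C / 4 : ℝ) : ℂ)

/-- Let `φ` be holomorphic and injective in `|w| < r`, where `r > 1`, and let (S) have a nontrivial
solution on `Ω = φ(D)` for `lam > 0`.
(1) If `P(z, conj z) = 0` on `∂Ω` for a nonzero complex polynomial `P(z, w)`, then `Ω` is a disc or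
there is a triple resonance, with the above restrictions on `q` and `j`.
(2) If `∂Ω` lies on the zero set of a nonzero real polynomial in two real variables of total degree
at most seven, then `Ω` is a disc. -/
theorem result (φ : ℂ → ℂ) (r : ℝ) (hr : 1 < r) (hφ : DifferentiableOn ℂ φ (ball 0 r))
    (hinj : InjOn φ (ball 0 r)) (lam : ℝ) (hlam : 0 < lam) (hS : Solvable (φ '' ball 0 1) lam) :
    (∀ P : Polynomial (Polynomial ℂ), P ≠ 0 →
      (∀ ζ ∈ frontier (φ '' ball 0 1), P.evalEval ζ (conj ζ) = 0) →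
      IsDisc (φ '' ball 0 1) ∨ TripleResonance (φ '' ball 0 1) lam P) ∧
    (∀ p : MvPolynomial (Fin 2) ℝ, p ≠ 0 → p.totalDegree ≤ 7 →
      (∀ ζ ∈ frontier (φ '' ball 0 1), MvPolynomial.eval ![ζ.re, ζ.im] p = 0) →
      IsDisc (φ '' ball 0 1)) := by
  obtain ⟨c, u, U, hu, hU, h1, h2, hu0⟩ := hS
  have hSol : Pool.Agent.TH298.Sch.Sol (φ '' ball 0 1) lam c u U := ⟨hu, hU, h1, h2⟩
  have hcont : ContinuousOn φ (closedBall 0 1) :=
    (hφ.continuousOn).mono (closedBall_subset_ball hr)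
  have hb' : Bornology.IsBounded (φ '' ball 0 1) :=
    ((isCompact_closedBall (0 : ℂ) 1).image_of_continuousOn hcont).isBounded.subset
      (image_mono ball_subset_closedBall)
  have hm' : MeasurableSet (φ '' ball 0 1) :=
    (isOpen_ball.measurableSet).image_of_continuousOn_injOn
      (hcont.mono ball_subset_closedBall) (hinj.mono (ball_subset_ball hr.le))
  have hc : c ≠ 0 := hSol.c_ne hb' hm' hlam hu0
  refine ⟨fun P hP hPb => ?_, fun p hp hd hpb =>
    Run7.h367.SF.alg_seven hr hφ hinj hlam hc hSol hp hd hpb⟩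
  rcases Run7.h367.SF.alg_main hr hφ hinj hlam hc hSol hP (fun v hv =>
    hPb _ (Run7.h367.SF.boundary_sub hr hφ hinj hv)) with h | h
  · exact Or.inl h
  · right
    obtain ⟨z0, C, q, j, j', h1, h2, h3, h4, h5, h6, h7, h8, h9, h10, ⟨x, hx, hCx⟩, h11, h12,
      h13⟩ := h
    have hy : ((lam / 4 : ℝ) : ℂ) * C = ((lam * x / 4 : ℝ) : ℂ) := by
      rw [hCx]
      push_cast
      ring
    rw [hy] at h11 h12 h13
    have h14 := Run7.h367.SF.bn_has 1 ((lam * x / 4 : ℝ) : ℂ)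
    rw [h11] at h14
    exact ⟨z0, x, q, j, j', h1, hx, h2, h3, h4, h5, h6, h7, h8, h9, h10, h14, h12, h13⟩

end Pool.Agent.Results.MP_83fd13_an.AlgebraicBoundaries
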