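import Pool.Agent.Run7.h367.Loc

/-!
# Branched singularities of the Schwarz function of a counterexample to Schiffer's conjecture

Let `Ω = φ(D)`, where `φ` is holomorphic and injective in a disc `|w| < r`, `r > 1`, let `D` be the
open unit disc, and let (S) have a nontrivial solution on `Ω` for `lam > 0`. Let `S` be the Schwarz
function of `∂Ω` (`S(z) = conj z` on `∂Ω`), continued analytically inside `Ω` along all possible
paths. The branches over a punctured disc `0 < |z - z0| < e ^ δ` contained in `Ω` may have any number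
of sheets (also infinitely many); they are written in the coordinate `t = log (z - z0)`.
-/

set_option autoImplicit false

open MeasureTheory Metric Set Filter Topology ComplexConjugate

namespace Pool.Agent.Results.MP_83fd13_an.SchwarzSheets

/-- The overdetermined problem (S) in the plane `ℂ`: `-Δu = lam u` in `Ω`, `∂u/∂n = 0` on `∂Ω`,
`u = c` on `∂Ω` has a nontrivial weak solution `u` for some real constant `c`; `G` is the weak
gradient of `u`, and both boundary conditions are expressed by testing with functions that need not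
vanish on `∂Ω`. -/
def Solvable (Ω : Set ℂ) (lam : ℝ) : Prop :=
  ∃ (c : ℝ) (u : ℂ → ℝ) (G : ℂ → ℂ),
    MemLp u 2 (volume.restrict Ω) ∧ MemLp G 2 (volume.restrict Ω) ∧
    (∀ φ : ℂ → ℝ, ContDiff ℝ 1 φ → HasCompactSupport φ → ∀ v : ℂ,
      ∫ x in Ω, (u x - c) * (fderiv ℝ φ x v) = - ∫ x in Ω, @inner ℝ ℂ _ (G x) v * φ x) ∧
    (∀ φ : ℂ → ℝ, ContDiff ℝ 1 φ → HasCompactSupport φ →
      ∫ x in Ω, fderiv ℝ φ x (G x) = lam * ∫ x in Ω, u x * φ x) ∧
    ¬ (u =ᵐ[volume.restrict Ω] 0)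

/-- The germs obtained from the Schwarz function of `φ(|w| = 1)` by analytic continuation along
chains of discs in `Ω = φ(|w| < 1)`: `SchwarzBranch φ r z f` means that `f` near `z` is such a
continuation; the Schwarz function is given near the points `φ w`, `1 / r < |w| < 1`, by
`S (φ v) = conj (φ (1 / conj v))`. -/
inductive SchwarzBranch (φ : ℂ → ℂ) (r : ℝ) : ℂ → (ℂ → ℂ) → Prop
  | base (w : ℂ) (f : ℂ → ℂ) (h1 : 1 < r * ‖w‖) (h2 : ‖w‖ < 1)
      (hf : ∀ᶠ v in 𝓝 w, f (φ v) = conj (φ (1 / conj v))) : SchwarzBranch φ r (φ w) f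
  | step (z z' c : ℂ) (ρ : ℝ) (f g : ℂ → ℂ) (h : SchwarzBranch φ r z f)
      (hB : ball c ρ ⊆ φ '' ball 0 1) (hg : DifferentiableOn ℂ g (ball c ρ))
      (hz : z ∈ ball c ρ) (hz' : z' ∈ ball c ρ) (hfg : f =ᶠ[𝓝 z] g) : SchwarzBranch φ r z' g

/-- `G` is a branch of the Schwarz function over the punctured disc `0 < |z - z0| < e ^ δ`, in the
coordinate `t = log (z - z0)`: the disc lies in `Ω`, `G` is holomorphic in the half-plane
`Re t < δ`, and near some `t0` we have `G t = f (z0 + e ^ t)`, where `f` is a continuation of the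
Schwarz function. -/
def LogBranch (φ : ℂ → ℂ) (r : ℝ) (z0 : ℂ) (δ : ℝ) (G : ℂ → ℂ) : Prop :=
  ball z0 (Real.exp δ) ⊆ φ '' ball 0 1 ∧ DifferentiableOn ℂ G {t : ℂ | t.re < δ} ∧
  ∃ (t0 : ℂ) (f : ℂ → ℂ), t0.re < δ ∧ SchwarzBranch φ r (z0 + Complex.exp t0) f ∧
    ∀ᶠ t in 𝓝 t0, G t = f (z0 + Complex.exp t)

/-- `G`, as a function of `z = z0 + e ^ t`, is regularly varying of order `κ`, like
`(z - z0) ^ (-κ)`: `G (t + v) / G t → e ^ (-κ v)` for `Re t → -∞`, uniformly for bounded `v` and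
`Im t`. -/
def RegularlyVarying (G : ℂ → ℂ) (κ : ℝ) : Prop :=
  ∀ K η : ℝ, 0 < K → 0 < η → ∃ T : ℝ, ∀ t v : ℂ, t.re ≤ T → |t.im| ≤ K → ‖v‖ ≤ K →
    ‖G (t + v) / G t - Complex.exp (-(κ * v))‖ ≤ η

/-- `J_1(2 √y) = 0`, `y ≠ 0`, i.e. `∑ (-y) ^ k / (k! (k + 1)!) = 0`. -/
def ZeroOfJ1 (y : ℂ) : Prop :=
  HasSum (fun k : ℕ => (-y) ^ k / ((k.factorial : ℂ) * ((k + 1).factorial : ℂ))) 0

/-- `J_(-σ-1)(2 √y) = 0` for `σ` not an integer, i.e.
`∑ y ^ m / (m! σ (σ - 1) ⋯ (σ - m + 1)) = 0`. -/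
def Resonance (y : ℂ) (σ : ℝ) : Prop :=
  HasSum (fun m : ℕ => y ^ m / ((m.factorial : ℂ) * ∏ i ∈ Finset.range m, ((σ : ℂ) - i))) 0

/-- A branch is regularly varying of order at most one. -/
def OrderAtMostOne (φ : ℂ → ℂ) (r : ℝ) : Prop :=
  ∀ (z0 : ℂ) (δ κ : ℝ) (G : ℂ → ℂ), LogBranch φ r z0 δ G → RegularlyVarying G κ → κ ≤ 1

/-- If `G = C / (z - z0) + w + d`, where `d` is regularly varying of order `-σ < 1`, `σ ≠ 0`
(`d` is like `(z - z0) ^ σ`), then either `C = 0` and `σ` is a positive integer, or `C > 0`, `σ > 1`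
is not an integer, `J_1` has the zero `√(lam C)`, and `√(lam C)` is also a zero of `J_(-σ-1)`. -/
def Quantised (φ : ℂ → ℂ) (r lam : ℝ) : Prop :=
  ∀ (z0 : ℂ) (δ σ : ℝ) (G d : ℂ → ℂ) (w C : ℂ), LogBranch φ r z0 δ G → -1 < σ → σ ≠ 0 →
    (∀ t : ℂ, t.re < δ → G t = C * Complex.exp (-t) + w + d t) → RegularlyVarying d (-σ) →
    (C = 0 ∧ ∃ n : ℕ, 1 ≤ n ∧ σ = n) ∨
    ((∃ x : ℝ, 0 < x ∧ C = x) ∧ (∀ n : ℤ, σ ≠ n) ∧ 1 < σ ∧ ZeroOfJ1 ((lam / 4 : ℝ) * C) ∧
      Resonance ((lam / 4 : ℝ) * C) σ)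

/-- Branches with `q` sheets which do not have an essential singularity: if
`G (t + 2 π i q) = G t` and `|z - z0| ^ (m / q) |G|` is bounded near `z0` for some `m`, then `G` is a
single-valued holomorphic function of `z`, `|z - z0| < e ^ δ` (no singularity at all), or
`G = C / (z - z0) + w + (z - z0) ^ (j / q - 1) H ((z - z0) ^ (1 / q))` near `z0`, where `j > 2 q`,
`q ∤ j`, `H` is holomorphic near `0`, `H 0 ≠ 0`, `C > 0`, and `√(lam C)` is a common zero of `J_1`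
and `J_(-j/q)`; moreover, either `(z - z0) (G - w)` is invariant under the rotation `z - z0 ↦
e ^ (2 π i q / j) (z - z0)`, or there is a second resonance: `√(lam C)` is also a zero of
`J_(-j'/q)` for some `j' > j + q` with `q ∤ j'` and `q ∤ j' - j`. -/
def FiniteSheets (φ : ℂ → ℂ) (r lam : ℝ) : Prop :=
  ∀ (z0 : ℂ) (δ : ℝ) (G : ℂ → ℂ) (q m : ℕ) (K T0 : ℝ), LogBranch φ r z0 δ G → 1 ≤ q →
    (∀ t : ℂ, t.re < δ → G (t + q * (2 * Real.pi * Complex.I)) = G t) →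
    (∀ t : ℂ, t.re < δ → t.re ≤ T0 → ‖Complex.exp (t / q) ^ m * G t‖ ≤ K) →
    (∃ E : ℂ → ℂ, DifferentiableOn ℂ E (ball z0 (Real.exp δ)) ∧
      ∀ t : ℂ, t.re < δ → G t = E (z0 + Complex.exp t)) ∨
    ∃ (w C : ℂ) (j : ℕ) (H : ℂ → ℂ) (T : ℝ), 2 * q < j ∧ ¬ q ∣ j ∧ AnalyticAt ℂ H 0 ∧ H 0 ≠ 0 ∧
      (∀ t : ℂ, t.re ≤ T → G t = C * Complex.exp (-t) + w +
        Complex.exp (t / q) ^ j * Complex.exp (-t) * H (Complex.exp (t / q))) ∧
      (∃ x : ℝ, 0 < x ∧ C = x) ∧ ZeroOfJ1 ((lam / 4 : ℝ) * C) ∧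
      Resonance ((lam / 4 : ℝ) * C) ((j : ℝ) / q - 1) ∧
      ((∀ t : ℂ, t.re < δ → w + Complex.exp ((2 * Real.pi * q / j : ℝ) * Complex.I) *
          (G (t + (2 * Real.pi * q / j : ℝ) * Complex.I) - w) = G t) ∨
        ∃ j' : ℕ, j + q < j' ∧ ¬ q ∣ j' ∧ ¬ q ∣ j' - j ∧
          Resonance ((lam / 4 : ℝ) * C) ((j' : ℝ) / q - 1))

theorem sbr_of (φ : ℂ → ℂ) (r : ℝ) (z : ℂ) (f : ℂ → ℂ) (h : SchwarzBranch φ r z f) :
    Run7.h367.SF.SBr φ r z f := by
  induction h with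
  | base w f h1 h2 hf => exact Run7.h367.SF.SBr.base w f h1 h2 hf
  | step z z' c ρ f g _ hB hg hz hz' hfg ih =>
    exact Run7.h367.SF.SBr.step z z' c ρ f g ih hB hg hz hz' hfg

theorem lbr_of (φ : ℂ → ℂ) (r : ℝ) (z0 : ℂ) (δ : ℝ) (G : ℂ → ℂ) (h : LogBranch φ r z0 δ G) :
    Run7.h367.SF.LBr φ r z0 δ G := by
  obtain ⟨h1, h2, t0, f, h3, h4, h5⟩ := h
  exact ⟨h1, h2, t0, f, h3, sbr_of φ r _ f h4, h5⟩

theorem zero_of (y : ℂ) (h : Pool.Agent.Y245.SG.Bn 1 y = 0) : ZeroOfJ1 y := by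
  have h1 := Run7.h367.SF.bn_has 1 y
  rw [h] at h1
  exact h1

/-- Let `φ` be holomorphic and injective in `|w| < r`, where `r > 1`, and let (S) have a nontrivial
solution on `Ω = φ(D)` for `lam > 0`. Then a branch of the Schwarz function over a punctured disc in
`Ω`, with any number of sheets, cannot be regularly varying of order `> 1`; the branches
`C / (z - z0) + w + d` are quantised; and if `Ω` is not a disc, then a branch with finitely many
sheets and without essential singularity is regular or a resonant branched simple pole. -/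
theorem result (φ : ℂ → ℂ) (r : ℝ) (hr : 1 < r) (hφ : DifferentiableOn ℂ φ (ball 0 r))
    (hinj : InjOn φ (ball 0 r)) (lam : ℝ) (hlam : 0 < lam) (hS : Solvable (φ '' ball 0 1) lam) :
    OrderAtMostOne φ r ∧ Quantised φ r lam ∧
    ((¬ ∃ (p : ℂ) (r0 : ℝ), 0 < r0 ∧ φ '' ball 0 1 = ball p r0) → FiniteSheets φ r lam) := by
  obtain ⟨c, u, U, hu, hU, h1, h2, hu0⟩ := hS
  have hSol : Pool.Agent.TH298.Sch.Sol (φ '' ball 0 1) lam c u U := ⟨hu, hU, h1, h2⟩
  have hcont : ContinuousOn φ (closedBall 0 1) :=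
    (hφ.continuousOn).mono (closedBall_subset_ball hr)
  have hb' : Bornology.IsBounded (φ '' ball 0 1) :=
    ((isCompact_closedBall (0 : ℂ) 1).image_of_continuousOn hcont).isBounded.subset
      (image_mono ball_subset_closedBall)
  have hm' : MeasurableSet (φ '' ball 0 1) :=
    (isOpen_ball.measurableSet).image_of_continuousOn_injOn
      (hcont.mono ball_subset_closedBall) (hinj.mono (ball_subset_ball hr.le))
  have hc : c ≠ 0 := hSol.c_ne hb' hm' hlam hu0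
  obtain ⟨ho, ψ, hψ, hψm, hψi⟩ := Run7.h367.SF.inv_exists φ r hr hφ hinj
  have D : Run7.h367.SF.Dat φ ψ r (lam / 4) := ⟨hr, hφ, hinj, by positivity, ho, hψ, hψm, hψi⟩
  refine ⟨?_, ?_, fun hnd => ?_⟩
  · intro z0 δ κ G hG hrv
    exact Run7.h367.SF.lbr_no_pow D hlam hc hSol (lbr_of φ r z0 δ G hG) hrv
  · intro z0 δ σ G d w C hG hσ hσ0 hd hrv
    rcases Run7.h367.SF.lbr_quant D hlam hc hSol (lbr_of φ r z0 δ G hG) hσ hσ0 hd hrv with
      h | ⟨h3, h4, h5, h6, h7⟩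
    · exact Or.inl h
    · exact Or.inr ⟨h3, h4, h5, zero_of _ h6, h7⟩
  · intro z0 δ G q m K T0 hG hq hper hgr
    have hL := lbr_of φ r z0 δ G hG
    obtain ⟨t0, F, ht0, hF, hFG⟩ := Run7.h367.SF.lbr_data D hlam hc hSol hL
    have hT := Run7.h367.SF.lbr_turn D hlam hc hSol hL
    rcases D.finite hG.1 hG.2.1 ht0 hF hFG hq hper m K T0 hgr with h | ⟨E, hE, hEG⟩ | h
    · exact absurd h hnd
    · exact Or.inl ⟨E, hE, fun t ht => (hEG t ht).symm⟩
    · right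
      obtain ⟨w, C, j, H, T, hB⟩ := h
      have hsym := Run7.h367.SF.sym_or D.ha hq hT hB
      obtain ⟨hC, hj, hjq, hHa, hH0, hGe, hB1, hx, hR⟩ := hB
      refine ⟨w, C, j, H, T, hj, hjq, hHa, hH0, hGe, hx, zero_of _ hB1, hR, ?_⟩
      exact hsym

end Pool.Agent.Results.MP_83fd13_an.SchwarzSheets
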